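import Pool.Agent.H313R3.TK.J

/-!
# The Mertens function oscillates with both signs in every window `[x, x log x]`

`M(y) = ∑_{n ≤ y} μ(n)`.

* For every zero `ρ` of `ζ` with `1/2 ≤ Re ρ < 1` there are `c > 0` and `X` such that **every** window
  `[x, x log x]`, `x ≥ X`, contains `y₁`, `y₂` with `M(y₁) ≥ c y₁^{Re ρ}` and `M(y₂) ≤ - c y₂^{Re ρ}`;
  for a multiple zero the bound improves to `c y^{Re ρ} log y`.
* Unconditionally: every window `[x, x log x]`, `x ≥ X`, contains `y₁`, `y₂` with `M(y₁) ≥ c √y₁` and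
  `M(y₂) ≤ - c √y₂`.
* If for one sign `s = ±1` and every `ε > 0` there are arbitrarily large `x` (as sparse as one likes) with
  `s M(y) ≤ ε √y log y` on the single window `[x, x log x]`, then the Riemann Hypothesis holds and all
  nontrivial zeros are simple.
* In particular this holds when `s M(y) ≤ K F(y)` on infinitely many windows `[x, x log x]`, where
  `F(y) = √y (log log log y)^{5/4}`: either half of the proposed equality, even restricted to sparse windows,
  forces the Riemann Hypothesis and the simplicity of the zeros.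
-/

set_option autoImplicit false

open Filter Topology

namespace Pool.Agent.Results.MP_a499ba_nt.EveryWindow

/-- `M(y) = ∑_{n ≤ y} μ(n)` -/
noncomputable def M (y : ℝ) : ℝ := ∑ n ∈ Finset.Icc 1 ⌊y⌋₊, ((ArithmeticFunction.moebius n : ℤ) : ℝ)

/-- `F(y) = √y (log log log y)^{5/4}` -/
noncomputable def F (y : ℝ) : ℝ := Real.sqrt y * Real.log (Real.log (Real.log y)) ^ ((5 : ℝ) / 4)

theorem result :
    -- both signs in every window, at the level of any zero
    (∀ ρ : ℂ, riemannZeta ρ = 0 → 1 / 2 ≤ ρ.re → ρ.re < 1 →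
      ∃ c : ℝ, 0 < c ∧ ∀ᶠ x : ℝ in atTop,
        (∃ y ∈ Set.Icc x (x * Real.log x), c * y ^ ρ.re ≤ M y) ∧
        (∃ y ∈ Set.Icc x (x * Real.log x), M y ≤ -(c * y ^ ρ.re))) ∧
    (∀ ρ : ℂ, riemannZeta ρ = 0 → deriv riemannZeta ρ = 0 → 1 / 2 ≤ ρ.re → ρ.re < 1 →
      ∃ c : ℝ, 0 < c ∧ ∀ᶠ x : ℝ in atTop,
        (∃ y ∈ Set.Icc x (x * Real.log x), c * (y ^ ρ.re * Real.log y) ≤ M y) ∧
        (∃ y ∈ Set.Icc x (x * Real.log x), M y ≤ -(c * (y ^ ρ.re * Real.log y)))) ∧
    -- unconditionally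
    (∃ c : ℝ, 0 < c ∧ ∀ᶠ x : ℝ in atTop,
        (∃ y ∈ Set.Icc x (x * Real.log x), c * Real.sqrt y ≤ M y) ∧
        (∃ y ∈ Set.Icc x (x * Real.log x), M y ≤ -(c * Real.sqrt y))) ∧
    -- a one-sided bound on sparse windows implies RH and simplicity
    (∀ s : ℝ, s = 1 ∨ s = -1 →
      (∀ ε : ℝ, 0 < ε → ∃ᶠ x : ℝ in atTop, ∀ y ∈ Set.Icc x (x * Real.log x),
        s * M y ≤ ε * (Real.sqrt y * Real.log y)) →
      ∀ ρ : ℂ, riemannZeta ρ = 0 → 0 < ρ.re → ρ.re < 1 → ρ.re = 1 / 2 ∧ deriv riemannZeta ρ ≠ 0) ∧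
    -- the same with Gonek's normalisation
    (∀ s : ℝ, s = 1 ∨ s = -1 → ∀ K : ℝ,
      (∃ᶠ x : ℝ in atTop, ∀ y ∈ Set.Icc x (x * Real.log x), s * M y ≤ K * F y) →
      ∀ ρ : ℂ, riemannZeta ρ = 0 → 0 < ρ.re → ρ.re < 1 → ρ.re = 1 / 2 ∧ deriv riemannZeta ρ ≠ 0) := by
  have hM : M = H313.TK.MM := rfl
  have two : ∀ (f : ℝ → ℝ), (∃ c : ℝ, 0 < c ∧ ∀ᶠ x : ℝ in atTop, ∀ s : ℝ, s = 1 ∨ s = -1 →
      ∃ y ∈ Set.Icc x (x * Real.log x), c * f y ≤ s * H313.TK.MM y) →
      ∃ c : ℝ, 0 < c ∧ ∀ᶠ x : ℝ in atTop,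
        (∃ y ∈ Set.Icc x (x * Real.log x), c * f y ≤ M y) ∧
        (∃ y ∈ Set.Icc x (x * Real.log x), M y ≤ -(c * f y)) := by
    rintro f ⟨c, hc, h⟩
    refine ⟨c, hc, ?_⟩
    filter_upwards [h] with x hx
    rw [hM]
    obtain ⟨y, hy, hy2⟩ := hx 1 (Or.inl rfl)
    obtain ⟨z, hz, hz2⟩ := hx (-1) (Or.inr rfl)
    exact ⟨⟨y, hy, by linarith⟩, ⟨z, hz, by linarith⟩⟩
  have main : ∀ s : ℝ, s = 1 ∨ s = -1 →
      (∀ ε : ℝ, 0 < ε → ∃ᶠ x : ℝ in atTop, ∀ y ∈ Set.Icc x (x * Real.log x),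
        s * M y ≤ ε * (Real.sqrt y * Real.log y)) →
      ∀ ρ : ℂ, riemannZeta ρ = 0 → 0 < ρ.re → ρ.re < 1 → ρ.re = 1 / 2 ∧ deriv riemannZeta ρ ≠ 0 := by
    intro s hs h ρ hz h0 h1
    have key : ∀ ρ : ℂ, riemannZeta ρ = 0 → ρ.re < 1 → ρ.re ≤ 1 / 2 := by
      intro ρ hz h1
      by_contra hcon
      push Not at hcon
      obtain ⟨c, hc, hev⟩ := H313.TK.signs ρ hz hcon.le h1
      have hgrow : ∀ᶠ y : ℝ in atTop, Real.sqrt y * Real.log y < c * y ^ ρ.re := by
        have h3 := isLittleO_log_rpow_atTop (show 0 < ρ.re - 1 / 2 by linarith)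
        have h4 := h3.def (show 0 < c / 2 by positivity)
        filter_upwards [h4, eventually_gt_atTop 1] with x hx hx1
        have hx0 : 0 < x := by linarith
        have hl0 : 0 < Real.log x := Real.log_pos hx1
        rw [Real.norm_eq_abs, Real.norm_eq_abs, abs_of_pos hl0, abs_of_pos (Real.rpow_pos_of_pos hx0 _)] at hx
        have h5 : Real.sqrt x * x ^ (ρ.re - 1 / 2) = x ^ ρ.re := by
          rw [Real.sqrt_eq_rpow, ← Real.rpow_add hx0]
          congr 1
          ring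
        have h6 : 0 < x ^ ρ.re := Real.rpow_pos_of_pos hx0 _
        calc Real.sqrt x * Real.log x ≤ Real.sqrt x * (c / 2 * x ^ (ρ.re - 1 / 2)) :=
              mul_le_mul_of_nonneg_left hx (Real.sqrt_nonneg _)
          _ = c / 2 * (Real.sqrt x * x ^ (ρ.re - 1 / 2)) := by ring
          _ = c / 2 * x ^ ρ.re := by rw [h5]
          _ < c * x ^ ρ.re := by
            have : 0 < c * x ^ ρ.re := by positivity
            linarith
      obtain ⟨Y, hY⟩ := eventually_atTop.mp hgrow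
      obtain ⟨x, hx1, hx2, hx3⟩ := ((h 1 one_pos).and_eventually (hev.and (eventually_ge_atTop Y))).exists
      obtain ⟨y, hy, hy2⟩ := hx2 s hs
      have h5 := hx1 y hy
      have h6 := hY y (hx3.trans hy.1)
      rw [hM] at h5
      linarith
    have hle := key ρ hz h1
    have hge := key (1 - ρ) (H313.TK.refl_zero ρ hz h0 h1) (by simp; linarith)
    have hre : ρ.re = 1 / 2 := by
      simp at hge
      linarith
    refine ⟨hre, fun hz' => ?_⟩
    obtain ⟨c, hc, hev⟩ := H313.TK.signs2 ρ hz hz' hre.ge h1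
    obtain ⟨x, hx1, hx2, hx3⟩ := ((h (c / 2) (by positivity)).and_eventually (hev.and (eventually_gt_atTop (1:ℝ)))).exists
    obtain ⟨y, hy, hy2⟩ := hx2 s hs
    have h5 := hx1 y hy
    rw [hM] at h5
    have hy1 : 1 < y := hx3.trans_le hy.1
    have h6 : 0 < Real.log y := Real.log_pos hy1
    have h7 : 0 < Real.sqrt y := Real.sqrt_pos.mpr (by linarith)
    rw [hre, ← Real.sqrt_eq_rpow] at hy2
    have h8 : 0 < c * (Real.sqrt y * Real.log y) := by positivity
    linarith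
  refine ⟨fun ρ hz h0 h1 => two _ (H313.TK.signs ρ hz h0 h1),
    fun ρ hz hz' h0 h1 => two _ (H313.TK.signs2 ρ hz hz' h0 h1), ?_, main, ?_⟩
  · obtain ⟨ρ, hz, h0, h1⟩ := H313.TK.exists_zero
    have hs := H313.TK.signs ρ hz h0 h1
    refine two _ ?_
    obtain ⟨c, hc, h⟩ := hs
    refine ⟨c, hc, ?_⟩
    filter_upwards [h, eventually_ge_atTop 1] with x hx hx1 s hs
    obtain ⟨y, hy, hy2⟩ := hx s hs
    refine ⟨y, hy, le_trans ?_ hy2⟩
    rw [Real.sqrt_eq_rpow]
    exact mul_le_mul_of_nonneg_left (Real.rpow_le_rpow_of_exponent_le (hx1.trans hy.1) h0) hc.le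
  · intro s hs K h
    refine main s hs fun ε hε => ?_
    -- `K (log log log y)^{5/4} ≤ ε log y` eventually
    have hev : ∀ᶠ y : ℝ in atTop, K * F y ≤ ε * (Real.sqrt y * Real.log y) := by
      have hlo : (fun x : ℝ => x ^ ((5 : ℝ) / 4)) =o[atTop] Real.exp := isLittleO_rpow_exp_atTop _
      have h2 : Tendsto (fun y : ℝ => Real.log (Real.log (Real.log y))) atTop atTop :=
        Real.tendsto_log_atTop.comp (Real.tendsto_log_atTop.comp Real.tendsto_log_atTop)
      have h3 := (hlo.comp_tendsto h2).def (show 0 < ε / (|K| + 1) by positivity)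
      filter_upwards [h3, h2.eventually_ge_atTop 1, (Real.tendsto_log_atTop.comp Real.tendsto_log_atTop).eventually_ge_atTop 1,
        Real.tendsto_log_atTop.eventually_ge_atTop 1] with y hy h4 h5 h6
      simp only [Function.comp_def] at hy h5
      rw [Real.exp_log (by linarith)] at hy
      have hl1 : 0 ≤ Real.log (Real.log (Real.log y)) := by linarith
      have h7 : 0 ≤ Real.log (Real.log (Real.log y)) ^ ((5 : ℝ) / 4) := Real.rpow_nonneg hl1 _
      rw [Real.norm_eq_abs, Real.norm_eq_abs, abs_of_nonneg h7,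
        abs_of_nonneg (show 0 ≤ Real.log (Real.log y) by linarith)] at hy
      have h8 : Real.log (Real.log y) ≤ Real.log y := (Real.log_le_sub_one_of_pos (by linarith)).trans (by linarith)
      have h9 : K * Real.log (Real.log (Real.log y)) ^ ((5 : ℝ) / 4) ≤ ε * Real.log y := by
        calc K * Real.log (Real.log (Real.log y)) ^ ((5 : ℝ) / 4)
            ≤ (|K| + 1) * Real.log (Real.log (Real.log y)) ^ ((5 : ℝ) / 4) :=
              mul_le_mul_of_nonneg_right (by linarith [le_abs_self K]) h7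
          _ ≤ (|K| + 1) * (ε / (|K| + 1) * Real.log (Real.log y)) :=
              mul_le_mul_of_nonneg_left hy (by positivity)
          _ = ε * Real.log (Real.log y) := by field_simp
          _ ≤ ε * Real.log y := mul_le_mul_of_nonneg_left h8 hε.le
      calc K * F y = Real.sqrt y * (K * Real.log (Real.log (Real.log y)) ^ ((5 : ℝ) / 4)) := by unfold F; ring
        _ ≤ Real.sqrt y * (ε * Real.log y) := mul_le_mul_of_nonneg_left h9 (Real.sqrt_nonneg _)
        _ = _ := by ring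
    obtain ⟨Y, hY⟩ := eventually_atTop.mp hev
    refine (h.and_eventually (eventually_ge_atTop Y)).mono ?_
    rintro x ⟨hx1, hx2⟩ y hy
    exact (hx1 y hy).trans (hY y (hx2.trans hy.1))

end Pool.Agent.Results.MP_a499ba_nt.EveryWindow
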