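import Pool.Agent.H313R3.GK.LF

/-!
# The summatory function of the Liouville function oscillates about `√y / ζ(1/2)` in every short window

`L(y) = ∑_{n ≤ y} λ(n)`.  Let `B > 1` (for instance windows `[x, x (log x)^{1.01}]`).

* For every zero `ρ` of `ζ` with `1/2 ≤ Re ρ < 1` and multiplicity at least `m ≥ 1` there is `c > 0` such that
  **every** window `[x, x (log x)^B]` with `x` large contains `y₁`, `y₂` with
  `L(y₁) ≥ √y₁/ζ(1/2) + c y₁^{Re ρ} (log y₁)^{m-1}` and `L(y₂) ≤ √y₂/ζ(1/2) - c y₂^{Re ρ} (log y₂)^{m-1}`.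
* Unconditionally: every window `[x, x (log x)^B]` with `x` large contains `y₁`, `y₂` with
  `L(y₁) ≥ (1/ζ(1/2) + c) √y₁` and `L(y₂) ≤ (1/ζ(1/2) - c) √y₂`.
* If for one sign `s = ±1` and every `ε > 0` there are arbitrarily large `x` (as sparse as one likes) with
  `s L(y) ≤ ε √y (log y)^k` on the single window `[x, x (log x)^B]` (`k ≥ 1`), then the Riemann Hypothesis holds
  and all nontrivial zeros have multiplicity at most `k`.
* In particular this holds with `k = 1` when `s L(y) ≤ K F(y)` on infinitely many such windows, where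
  `F(y) = √y (log log log y)^{5/4}`: either half of the proposed equality, even restricted to sparse windows,
  forces the Riemann Hypothesis and the simplicity of the zeros.
-/

set_option autoImplicit false

open Filter Topology

namespace Pool.Agent.Results.MP_a499ba_nt.LiouvilleWindows

/-- `L(y) = ∑_{n ≤ y} λ(n)` -/
noncomputable def L (y : ℝ) : ℝ := ∑ n ∈ Finset.Icc 1 ⌊y⌋₊, ((ArithmeticFunction.liouville n : ℤ) : ℝ)

/-- `F(y) = √y (log log log y)^{5/4}` -/
noncomputable def F (y : ℝ) : ℝ := Real.sqrt y * Real.log (Real.log (Real.log y)) ^ ((5 : ℝ) / 4)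

/-- the real number `ζ(1/2)` -/
noncomputable def z : ℝ := (riemannZeta (1 / 2)).re

theorem result :
    -- `z` is the value `ζ(1/2)`, and `L` is the summatory function of `(-1)^Ω(n)`
    (((z : ℝ) : ℂ) = riemannZeta (1 / 2) ∧ z ≠ 0 ∧
      ∀ y : ℝ, L y = ∑ n ∈ Finset.Icc 1 ⌊y⌋₊, (-1 : ℝ) ^ (ArithmeticFunction.cardFactors n)) ∧
    -- both signs in every window, at the level of any zero, with its multiplicity
    (∀ B : ℝ, 1 < B → ∀ ρ : ℂ, 1 / 2 ≤ ρ.re → ρ.re < 1 → ∀ m : ℕ, 1 ≤ m →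
      (m : ℕ∞) ≤ analyticOrderAt riemannZeta ρ →
      ∃ c : ℝ, 0 < c ∧ ∀ᶠ x : ℝ in atTop,
        (∃ y ∈ Set.Icc x (x * Real.log x ^ B),
          Real.sqrt y / z + c * (y ^ ρ.re * Real.log y ^ (m - 1)) ≤ L y) ∧
        (∃ y ∈ Set.Icc x (x * Real.log x ^ B),
          L y ≤ Real.sqrt y / z - c * (y ^ ρ.re * Real.log y ^ (m - 1)))) ∧
    -- unconditionally
    (∀ B : ℝ, 1 < B → ∃ c : ℝ, 0 < c ∧ ∀ᶠ x : ℝ in atTop,
        (∃ y ∈ Set.Icc x (x * Real.log x ^ B), (1 / z + c) * Real.sqrt y ≤ L y) ∧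
        (∃ y ∈ Set.Icc x (x * Real.log x ^ B), L y ≤ (1 / z - c) * Real.sqrt y)) ∧
    -- a one-sided bound on sparse windows implies RH and bounds the multiplicities
    (∀ B : ℝ, 1 < B → ∀ s : ℝ, s = 1 ∨ s = -1 → ∀ k : ℕ, 1 ≤ k →
      (∀ ε : ℝ, 0 < ε → ∃ᶠ x : ℝ in atTop, ∀ y ∈ Set.Icc x (x * Real.log x ^ B),
        s * L y ≤ ε * (Real.sqrt y * Real.log y ^ k)) →
      ∀ ρ : ℂ, riemannZeta ρ = 0 → 0 < ρ.re → ρ.re < 1 → ρ.re = 1 / 2 ∧ analyticOrderAt riemannZeta ρ ≤ k) ∧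
    -- the proposed normalisation
    (∀ B : ℝ, 1 < B → ∀ s : ℝ, s = 1 ∨ s = -1 → ∀ K : ℝ,
      (∃ᶠ x : ℝ in atTop, ∀ y ∈ Set.Icc x (x * Real.log x ^ B), s * L y ≤ K * F y) →
      ∀ ρ : ℂ, riemannZeta ρ = 0 → 0 < ρ.re → ρ.re < 1 → ρ.re = 1 / 2 ∧ analyticOrderAt riemannZeta ρ ≤ 1) := by
  have hL : L = H313.GK.LL := rfl
  have hzz : z = H313.GK.z0 := rfl
  refine ⟨⟨H313.GK.z0_eq, H313.GK.z0_ne, ?_⟩, ?_, ?_, ?_, ?_⟩
  · intro y
    unfold L
    refine Finset.sum_congr rfl fun n hn => ?_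
    rw [Finset.mem_Icc] at hn
    rw [ArithmeticFunction.liouville_apply (by omega)]
    push_cast
    rfl
  · intro B hB ρ h0 h1 m hm1 hm
    obtain ⟨c, hc, h⟩ := H313.GK.LL_signs hB ρ h0 h1 m hm1 hm
    refine ⟨c, hc, ?_⟩
    filter_upwards [h] with x hx
    rw [hL, hzz]
    obtain ⟨y, hy, hy2⟩ := hx 1 (Or.inl rfl)
    obtain ⟨w, hw, hw2⟩ := hx (-1) (Or.inr rfl)
    exact ⟨⟨y, hy, by linarith⟩, ⟨w, hw, by linarith⟩⟩
  · intro B hB
    obtain ⟨c, hc, h⟩ := H313.GK.LL_uncond hB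
    refine ⟨c, hc, ?_⟩
    filter_upwards [h] with x hx
    rw [hL, hzz]
    obtain ⟨y, hy, hy2⟩ := hx 1 (Or.inl rfl)
    obtain ⟨w, hw, hw2⟩ := hx (-1) (Or.inr rfl)
    have e1 : ∀ y : ℝ, 1 / H313.GK.z0 * Real.sqrt y = Real.sqrt y / H313.GK.z0 := fun y => by ring
    refine ⟨⟨y, hy, ?_⟩, ⟨w, hw, ?_⟩⟩
    · rw [add_mul, e1]
      linarith
    · rw [sub_mul, e1]
      linarith
  · intro B hB s hs k hk h ρ hz h0 h1
    exact H313.GK.LL_sup_m hB s hs k hk h ρ hz h0 h1
  · intro B hB s hs K h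
    refine fun ρ hz h0 h1 => H313.GK.LL_sup_m hB s hs 1 le_rfl (fun ε hε => ?_) ρ hz h0 h1
    -- `K (log log log y)^{5/4} ≤ ε log y` eventually
    have hev : ∀ᶠ y : ℝ in atTop, K * F y ≤ ε * (Real.sqrt y * Real.log y ^ 1) := by
      have hlo : (fun x : ℝ => x ^ ((5 : ℝ) / 4)) =o[atTop] Real.exp := isLittleO_rpow_exp_atTop _
      have h2 : Tendsto (fun y : ℝ => Real.log (Real.log (Real.log y))) atTop atTop :=
        Real.tendsto_log_atTop.comp (Real.tendsto_log_atTop.comp Real.tendsto_log_atTop)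
      have h3 := (hlo.comp_tendsto h2).def (show 0 < ε / (|K| + 1) by positivity)
      filter_upwards [h3, h2.eventually_ge_atTop 1, (Real.tendsto_log_atTop.comp Real.tendsto_log_atTop).eventually_ge_atTop 1,
        Real.tendsto_log_atTop.eventually_ge_atTop 1] with y hy h4 h5 h6
      simp only [Function.comp_def] at hy h5
      rw [Real.exp_log (by linarith)] at hy
      have hl1 : 0 ≤ Real.log (Real.log (Real.log y)) := by linarith
      have h7 : 0 ≤ Real.log (Real.log (Real.log y)) ^ ((5 : ℝ) / 4) := Real.rpow_nonneg hl1 _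
      rw [Real.norm_eq_abs, Real.norm_eq_abs, abs_of_nonneg h7,
        abs_of_nonneg (show 0 ≤ Real.log (Real.log y) by linarith)] at hy
      have h8 : Real.log (Real.log y) ≤ Real.log y := (Real.log_le_sub_one_of_pos (by linarith)).trans (by linarith)
      have h9 : K * Real.log (Real.log (Real.log y)) ^ ((5 : ℝ) / 4) ≤ ε * Real.log y := by
        calc K * Real.log (Real.log (Real.log y)) ^ ((5 : ℝ) / 4)
            ≤ (|K| + 1) * Real.log (Real.log (Real.log y)) ^ ((5 : ℝ) / 4) :=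
              mul_le_mul_of_nonneg_right (by linarith [le_abs_self K]) h7
          _ ≤ (|K| + 1) * (ε / (|K| + 1) * Real.log (Real.log y)) :=
              mul_le_mul_of_nonneg_left hy (by positivity)
          _ = ε * Real.log (Real.log y) := by field_simp
          _ ≤ ε * Real.log y := mul_le_mul_of_nonneg_left h8 hε.le
      calc K * F y = Real.sqrt y * (K * Real.log (Real.log (Real.log y)) ^ ((5 : ℝ) / 4)) := by unfold F; ring
        _ ≤ Real.sqrt y * (ε * Real.log y) := mul_le_mul_of_nonneg_left h9 (Real.sqrt_nonneg _)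
        _ = _ := by ring
    obtain ⟨Y, hY⟩ := eventually_atTop.mp hev
    refine (h.and_eventually (eventually_ge_atTop Y)).mono ?_
    rintro x ⟨hx1, hx2⟩ y hy
    rw [hL] at hx1
    exact (hx1 y hy).trans (hY y (hx2.trans hy.1))

end Pool.Agent.Results.MP_a499ba_nt.LiouvilleWindows
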